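import Pool.Agent.H1.OneA

open Pool.Agent.H1.One

theorem Pool.Agent.Results.MP_a19bc9_an.Q2False.result (n : ℕ) (hn : 1 ≤ n) :
    ∃ u : (Fin n → ℂ) → ℂ, AnalyticOnNhd ℝ u (B n) ∧ (∀ z ∈ B n, ‖u z‖ ≤ 1) ∧
      (∀ z ∈ B n, ∃ r : ℝ, 0 < r ∧ r < 1 ∧ avg u z r = u z) ∧
      ∃ z ∈ B n, ∃ r : ℝ, 0 < r ∧ r < 1 ∧ avg u z r ≠ u z :=
  ⟨u, main hn⟩
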